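import Pool.Agent.W851.BE.Stm

/-!
# BE-SK: the skeleton of an annulus: image and local degree
-/

set_option autoImplicit false

open Polynomial Topology Filter MeasureTheory

namespace Pool.Agent.W395.BE.SK

open Pool.Agent.W95.BK Pool.Agent.W851.BE

universe u

section basic

variable {K : Type u} [NontriviallyNormedField K]

lemma x_neg (x : BA K) (f : K[X]) : x (-f) = x f := by
  have h : -f = C (-1) * f := by simp
  rw [h, x.map_mul', x.map_C', norm_neg, norm_one, one_mul]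

lemma x_add_of_lt (x : BA K) {f g : K[X]} (h : x f < x g) : x (f + g) = x g := by
  refine le_antisymm ?_ ?_
  · have := x.map_add' f g
    rwa [max_eq_right h.le] at this
  · by_contra hlt
    push Not at hlt
    have h1 : g = (f + g) + (-f) := by ring
    have h2 := x.map_add' (f + g) (-f)
    rw [← h1, x_neg] at h2
    exact absurd (lt_of_le_of_lt h2 (max_lt hlt h)) (lt_irrefl _)

lemma nIn_split (h : K[X]) (S T U : Set K) (hd : ∀ w, w ∈ S → w ∉ T)
    (hu : ∀ w, w ∈ U ↔ w ∈ S ∨ w ∈ T) : nIn h S + nIn h T = nIn h U := by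
  classical
  unfold nIn
  rw [← Multiset.card_add, Multiset.filter_add_filter, Multiset.card_add]
  have h1 : (Multiset.filter (fun a => a ∈ S ∧ a ∈ T) h.roots) = 0 := by
    rw [Multiset.filter_eq_nil]
    rintro a - ⟨h2, h3⟩
    exact hd a h2 h3
  rw [h1, Multiset.card_zero, add_zero]
  refine congrArg Multiset.card ?_
  exact Multiset.filter_congr fun a _ => (hu a).symm

lemma nIn_congr (h : K[X]) (S T : Set K) (hst : ∀ w, h.eval w = 0 → (w ∈ S ↔ w ∈ T)) :
    nIn h S = nIn h T := by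
  classical
  unfold nIn
  refine congrArg Multiset.card ?_
  refine Multiset.filter_congr fun a ha => ?_
  exact hst a (mem_roots'.1 ha).2

lemma nIn_pos {h : K[X]} (h0 : h ≠ 0) {S : Set K} {w : K} (hw : h.eval w = 0) (hS : w ∈ S) :
    0 < nIn h S := by
  classical
  unfold nIn
  rw [Multiset.card_pos_iff_exists_mem]
  exact ⟨w, Multiset.mem_filter.2 ⟨mem_roots'.2 ⟨h0, hw⟩, hS⟩⟩

lemma exp_eq {A M t u v : ℝ} {n : ℕ} {m : ℤ} (hu : 0 ≤ u) (h1 : u < t) (h2 : t < v)
    (hM : 0 < M) (heq : A * t ^ n = M * t ^ m)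
    (hle : ∀ s, u < s → s < v → A * s ^ n ≤ M * s ^ m) : (n : ℤ) = m := by
  have ht : 0 < t := lt_of_le_of_lt hu h1
  have hMt : 0 < M * t ^ m := mul_pos hM (zpow_pos ht m)
  have key : ∀ s, u < s → s < v → (s / t) ^ (n : ℤ) ≤ (s / t) ^ m := by
    intro s hs1 hs2
    have h3 := div_le_div_of_nonneg_right (hle s hs1 hs2) hMt.le
    have hA : 0 < A := by
      by_contra hA
      push Not at hA
      have : A * t ^ n ≤ 0 := mul_nonpos_of_nonpos_of_nonneg hA (by positivity)
      linarith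
    have h4 : A * s ^ n / (M * t ^ m) = (s / t) ^ (n : ℤ) := by
      rw [← heq, mul_div_mul_left _ _ hA.ne', zpow_natCast, div_pow]
    have h5 : M * s ^ m / (M * t ^ m) = (s / t) ^ m := by
      rw [mul_div_mul_left _ _ hM.ne', div_zpow]
    rwa [h4, h5] at h3
  refine le_antisymm ?_ ?_
  · have h3 := key ((t + v) / 2) (by linarith) (by linarith)
    have h4 : 1 < (t + v) / 2 / t := by
      rw [one_lt_div ht]; linarith
    exact (zpow_le_zpow_iff_right₀ h4).1 h3
  · have h3 := key ((u + t) / 2) (by linarith) (by linarith)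
    have h4 : (u + t) / 2 / t < 1 := by
      rw [div_lt_one ht]; linarith
    have h5 : 0 < (u + t) / 2 / t := by positivity
    exact (zpow_le_zpow_iff_right_of_lt_one₀ h5 h4).1 h3

end basic

section gn

variable {K : Type u} [NontriviallyNormedField K] [IsUltrametricDist K]

lemma gn_C_mul (b : K) {s : ℝ} (hs : 0 < s) (a : K) (h : K[X]) :
    gn b s (C a * h) = ‖a‖ * gn b s h := by
  have h1 := (gauss b s hs).map_mul' (C a) h
  have h2 := (gauss b s hs).map_C' a
  rw [h2] at h1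
  exact h1

lemma gn_zero (b : K) {s : ℝ} (hs : 0 < s) : gn b s (0 : K[X]) = 0 :=
  BA.map_zero (gauss b s hs)

lemma gn_add_of_lt (b : K) {s : ℝ} (hs : 0 < s) {f g : K[X]} (h : gn b s f < gn b s g) :
    gn b s (f + g) = gn b s g :=
  x_add_of_lt (gauss b s hs) h

variable [IsAlgClosed K]

lemma coeff_le (hNP : S_NPOL.{u}) (b : K) {s : ℝ} (hs : 0 < s) (h : K[X]) (i : ℕ) :
    ‖(taylor b h).coeff i‖ * s ^ i ≤ gn b s h := by
  by_cases h0 : h = 0
  · rw [h0, gn_zero b hs]
    simp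
  · exact (hNP K h b s h0 hs).2.1 i

/-- if the Gauss norm is a monomial on an interval then the numbers of roots are constant -/
lemma mono_count (hNP : S_NPOL.{u}) {h : K[X]} (h0 : h ≠ 0) (b : K) {u v M : ℝ} {m : ℤ}
    (hu : 0 ≤ u) (hM : 0 < M) (hmono : ∀ s, u < s → s < v → gn b s h = M * s ^ m)
    {t : ℝ} (h1 : u < t) (h2 : t < v) :
    (nIn h {w | ‖w - b‖ < t} : ℤ) = m ∧ (nIn h {w | ‖w - b‖ ≤ t} : ℤ) = m := by
  have ht : 0 < t := lt_of_le_of_lt hu h1
  obtain ⟨-, -, e1, -, e2, -⟩ := hNP K h b t h0 ht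
  rw [hmono t h1 h2] at e1 e2
  constructor
  · refine exp_eq hu h1 h2 hM e1 ?_
    intro s hs1 hs2
    rw [← hmono s hs1 hs2]
    exact coeff_le hNP b (lt_of_le_of_lt hu hs1) h _
  · refine exp_eq hu h1 h2 hM e2 ?_
    intro s hs1 hs2
    rw [← hmono s hs1 hs2]
    exact coeff_le hNP b (lt_of_le_of_lt hu hs1) h _

omit [IsAlgClosed K] in
lemma norm_add_lt_eq {a a' : K} (h : ‖a'‖ < ‖a‖) : ‖a + a'‖ = ‖a‖ := by
  rw [IsUltrametricDist.norm_add_eq_max_of_norm_ne_norm h.ne', max_eq_left h.le]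

/-- the dominating polynomial determines the numbers of roots -/
lemma dom_count (hNP : S_NPOL.{u}) {A D : K[X]} {b : K} {s : ℝ} (hs : 0 < s) (hA : A ≠ 0)
    (hlt : gn b s D < gn b s A) :
    nIn (A + D) {w | ‖w - b‖ < s} = nIn A {w | ‖w - b‖ < s} ∧
      nIn (A + D) {w | ‖w - b‖ ≤ s} = nIn A {w | ‖w - b‖ ≤ s} := by
  have hgn : gn b s (A + D) = gn b s A := by
    rw [add_comm]
    exact gn_add_of_lt b hs hlt
  have hAD : A + D ≠ 0 := by
    intro h
    rw [h, gn_zero b hs] at hgn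
    have := (hNP K A b s hA hs).1
    rw [← hgn] at this
    exact lt_irrefl _ this
  have key : ∀ i, ‖(taylor b A).coeff i‖ * s ^ i = gn b s A ↔
      ‖(taylor b (A + D)).coeff i‖ * s ^ i = gn b s (A + D) := by
    intro i
    have hsi : 0 < s ^ i := by positivity
    have h1 : ‖(taylor b D).coeff i‖ * s ^ i < gn b s A :=
      lt_of_le_of_lt (coeff_le hNP b hs D i) hlt
    have h2 : (taylor b (A + D)).coeff i = (taylor b A).coeff i + (taylor b D).coeff i := by
      rw [map_add, coeff_add]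
    rw [hgn, h2]
    constructor
    · intro h3
      rw [← h3] at h1
      have h4 : ‖(taylor b D).coeff i‖ < ‖(taylor b A).coeff i‖ :=
        lt_of_mul_lt_mul_right h1 hsi.le
      rw [norm_add_lt_eq h4]
      exact h3
    · intro h3
      by_contra hne
      have h4 : ‖(taylor b A).coeff i‖ * s ^ i < gn b s A :=
        lt_of_le_of_ne (coeff_le hNP b hs A i) hne
      have h5 := IsUltrametricDist.norm_add_le_max ((taylor b A).coeff i) ((taylor b D).coeff i)
      have h6 := mul_le_mul_of_nonneg_right h5 hsi.le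
      rw [h3, max_mul_of_nonneg _ _ hsi.le] at h6
      exact absurd (lt_of_le_of_lt h6 (max_lt h4 h1)) (lt_irrefl _)
  obtain ⟨-, -, a1, a2, a3, a4⟩ := hNP K A b s hA hs
  obtain ⟨-, -, d1, d2, d3, d4⟩ := hNP K (A + D) b s hAD hs
  constructor
  · refine le_antisymm ?_ ?_
    · by_contra hlt
      push Not at hlt
      exact absurd ((key _).1 a1) (d2 _ hlt).ne
    · by_contra hlt
      push Not at hlt
      exact absurd ((key _).2 d1) (a2 _ hlt).ne
  · refine le_antisymm ?_ ?_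
    · by_contra hlt
      push Not at hlt
      exact absurd ((key _).2 d3) (a4 _ hlt).ne
    · by_contra hlt
      push Not at hlt
      exact absurd ((key _).1 a3) (d4 _ hlt).ne

omit [IsUltrametricDist K] [IsAlgClosed K] in
/-- a polynomial has the same number of roots in the open and in the closed disc only if it has
no root on the sphere -/
lemma no_root {h : K[X]} (h0 : h ≠ 0) {b : K} {s : ℝ}
    (heq : nIn h {w | ‖w - b‖ < s} = nIn h {w | ‖w - b‖ ≤ s}) :
    ∀ r, h.eval r = 0 → ‖r - b‖ ≠ s := by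
  intro r hr hrs
  have h1 := nIn_split h {w | ‖w - b‖ < s} {w | ‖w - b‖ = s} {w | ‖w - b‖ ≤ s}
    (fun w hw hw' => absurd hw' (ne_of_lt hw)) (fun w => by
      show ‖w - b‖ ≤ s ↔ ‖w - b‖ < s ∨ ‖w - b‖ = s
      exact le_iff_lt_or_eq)
  have h2 : 0 < nIn h {w | ‖w - b‖ = s} := nIn_pos h0 hr hrs
  omega

/-- values at a point of a polynomial without roots on its sphere -/
lemma val_eq (hVAL : S_VAL.{u}) (hISO : S_ISO.{u}) (hGL : S_GLAM.{u}) (x : BA K) (b : K)
    {s : ℝ} (hs : 0 < s) (hxs : lam x b = s) {h : K[X]}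
    (hr : ∀ r, h.eval r = 0 → ‖r - b‖ ≠ s) : x h = gn b s h := by
  have h1 := hVAL K x h
  have h2 : gn b s h = ‖h.leadingCoeff‖ *
      (h.roots.map (fun w => lam (gauss b s hs) w)).prod := hVAL K (gauss b s hs) h
  rw [h1, h2]
  refine congrArg (fun z => ‖h.leadingCoeff‖ * z) ?_
  refine congrArg Multiset.prod ?_
  refine Multiset.map_congr rfl fun r hrr => ?_
  rw [(hGL K b r).2 s hs]
  have h3 := hr r (mem_roots'.1 hrr).2
  obtain ⟨-, -, h4, h5⟩ := hISO K x r b
  rcases lt_or_gt_of_ne h3 with h6 | h6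
  · rw [h5 (by rw [hxs]; exact h6), hxs, max_eq_right]
    rw [norm_sub_rev]
    exact h6.le
  · rw [h4 (by rw [hxs]; exact h6), norm_sub_rev, max_eq_left]
    rw [norm_sub_rev]
    exact h6.le

/-- strictly smaller value of a polynomial with a root in a smaller disc -/
lemma val_lt (hVAL : S_VAL.{u}) (hISO : S_ISO.{u}) (hGL : S_GLAM.{u}) (x : BA K) (b z : K)
    {s : ℝ} (hs : 0 < s) (hxs : lam x b = s) {h : K[X]} (h0 : h ≠ 0) (hz : h.eval z = 0)
    (hlt : lam x z < s) : x h < gn b s h := by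
  classical
  have h1 := hVAL K x h
  have h2 : gn b s h = ‖h.leadingCoeff‖ *
      (h.roots.map (fun w => lam (gauss b s hs) w)).prod := hVAL K (gauss b s hs) h
  have hlc : 0 < ‖h.leadingCoeff‖ := norm_pos_iff.2 (leadingCoeff_ne_zero.2 h0)
  rw [h1, h2]
  refine mul_lt_mul_of_pos_left ?_ hlc
  have hzr : z ∈ h.roots := mem_roots'.2 ⟨h0, hz⟩
  obtain ⟨m, hm⟩ := Multiset.exists_cons_of_mem hzr
  rw [hm, Multiset.map_cons, Multiset.map_cons, Multiset.prod_cons, Multiset.prod_cons]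
  have hle : ∀ w : K, lam x w ≤ lam (gauss b s hs) w := by
    intro w
    rw [(hGL K b w).2 s hs]
    have := (hISO K x w b).1
    rw [hxs, norm_sub_rev, max_comm] at this
    exact this
  have hpos : ∀ w : K, 0 < lam (gauss b s hs) w := by
    intro w
    rw [(hGL K b w).2 s hs]
    exact lt_of_lt_of_le hs (le_max_right _ _)
  have hprod : (m.map (fun w => lam x w)).prod ≤ (m.map (fun w => lam (gauss b s hs) w)).prod := by
    refine Multiset.prod_map_le_prod_map₀ _ _ (fun w _ => x.nonneg' _) (fun w _ => hle w)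
  have hpp : 0 < (m.map (fun w => lam (gauss b s hs) w)).prod := by
    refine Multiset.prod_pos ?_
    intro y hy
    obtain ⟨w, -, rfl⟩ := Multiset.mem_map.1 hy
    exact hpos w
  have hz2 : lam x z < lam (gauss b s hs) z := by
    rw [(hGL K b z).2 s hs]
    exact lt_of_lt_of_le hlt (le_max_right _ _)
  calc lam x z * (m.map (fun w => lam x w)).prod
      ≤ lam x z * (m.map (fun w => lam (gauss b s hs) w)).prod :=
        mul_le_mul_of_nonneg_left hprod (x.nonneg' _)
    _ < lam (gauss b s hs) z * (m.map (fun w => lam (gauss b s hs) w)).prod :=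
        mul_lt_mul_of_pos_right hz2 hpp

omit [IsAlgClosed K] in
/-- counting in a set that does not contain infinity -/
lemma cnt_eq (g : RMap K) (U : Set (P1B K)) (hU : (OnePoint.infty : P1B K) ∉ U) (β : K) :
    cnt g U β = nIn (g.P - C β * g.Q) {w | ((cl w : BA K) : P1B K) ∈ U} := by
  classical
  unfold cnt fib nIn
  rw [Multiset.filter_add, Multiset.card_add]
  have h1 : Multiset.filter (fun w => w ∈ U) (Multiset.replicate
      (g.d - (g.P - C β * g.Q).natDegree) (OnePoint.infty : P1B K)) = 0 := by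
    rw [Multiset.filter_eq_nil]
    intro a ha
    rw [Multiset.eq_of_mem_replicate ha]
    exact hU
  rw [h1, Multiset.card_zero, add_zero, Multiset.filter_map, Multiset.card_map]
  refine congrArg Multiset.card ?_
  exact Multiset.filter_congr fun a _ => Iff.rfl

omit [IsUltrametricDist K] [IsAlgClosed K] in
lemma Q_ne_zero (g : RMap K) : g.Q ≠ 0 := by
  intro h
  have hc := g.cop
  rw [h, isCoprime_zero_right] at hc
  have h1 := natDegree_eq_zero_of_isUnit hc
  have h2 := g.deg_eq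
  have h3 := g.pos
  rw [h, h1, natDegree_zero, max_self] at h2
  omega

end gn

section mainsec

variable {K : Type u} [NontriviallyNormedField K] [IsUltrametricDist K] [IsAlgClosed K]

/-- the data on the annulus -/
structure Dat (g : RMap K) (b c : K) (u v κ : ℝ) (e : ℤ) : Prop where
  hu : 0 ≤ u
  hκ : 0 < κ
  he : e ≠ 0
  hQr : ∀ w : K, g.Q.eval w = 0 → ¬ (u < ‖w - b‖ ∧ ‖w - b‖ < v)
  hF : ∀ t, u < t → t < v → gn b t (g.P - C c * g.Q) = κ * t ^ e * gn b t g.Q

variable {g : RMap K} {b c : K} {u v κ : ℝ} {e : ℤ}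

lemma Dat.F_ne (H : Dat g b c u v κ e) (hNP : S_NPOL.{u}) {t : ℝ} (h1 : u < t) (h2 : t < v) :
    g.P - C c * g.Q ≠ 0 := by
  intro h0
  have ht : 0 < t := lt_of_le_of_lt H.hu h1
  have h3 := H.hF t h1 h2
  rw [h0, gn_zero b ht] at h3
  have h4 := (hNP K g.Q b t (Q_ne_zero g) ht).1
  have h5 : 0 < κ * t ^ e * gn b t g.Q :=
    mul_pos (mul_pos H.hκ (zpow_pos ht e)) h4
  rw [← h3] at h5
  exact lt_irrefl _ h5

/-- number of roots of `Q` -/
lemma Dat.kQ (H : Dat g b c u v κ e) {t : ℝ} (h1 : u < t) (h2 : t < v) :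
    nIn g.Q {w | ‖w - b‖ < t} = nIn g.Q {w | ‖w - b‖ ≤ u} ∧
      nIn g.Q {w | ‖w - b‖ ≤ t} = nIn g.Q {w | ‖w - b‖ ≤ u} := by
  constructor
  · refine nIn_congr _ _ _ fun w hw => ?_
    show ‖w - b‖ < t ↔ ‖w - b‖ ≤ u
    constructor
    · intro h
      by_contra h3
      push Not at h3
      exact H.hQr w hw ⟨h3, h.trans h2⟩
    · intro h
      exact lt_of_le_of_lt h h1
  · refine nIn_congr _ _ _ fun w hw => ?_
    show ‖w - b‖ ≤ t ↔ ‖w - b‖ ≤ u
    constructor
    · intro h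
      by_contra h3
      push Not at h3
      exact H.hQr w hw ⟨h3, lt_of_le_of_lt h h2⟩
    · intro h
      exact h.trans h1.le

lemma Dat.kF (H : Dat g b c u v κ e) (hNP : S_NPOL.{u}) {t : ℝ} (h1 : u < t) (h2 : t < v) :
    (nIn (g.P - C c * g.Q) {w | ‖w - b‖ < t} : ℤ) = e + nIn g.Q {w | ‖w - b‖ ≤ u} ∧
      (nIn (g.P - C c * g.Q) {w | ‖w - b‖ ≤ t} : ℤ) = e + nIn g.Q {w | ‖w - b‖ ≤ u} := by
  have hQ0 := Q_ne_zero g
  have hF0 := H.F_ne hNP h1 h2
  set k : ℕ := nIn g.Q {w | ‖w - b‖ ≤ u} with hk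
  have hgQ : ∀ s, u < s → s < v → gn b s g.Q = ‖(taylor b g.Q).coeff k‖ * s ^ k := by
    intro s hs1 hs2
    have hs : 0 < s := lt_of_le_of_lt H.hu hs1
    have h3 := (hNP K g.Q b s hQ0 hs).2.2.1
    rw [(H.kQ hs1 hs2).1] at h3
    exact h3.symm
  have hq : 0 < ‖(taylor b g.Q).coeff k‖ := by
    have ht : 0 < t := lt_of_le_of_lt H.hu h1
    have h3 := (hNP K g.Q b t hQ0 ht).1
    rw [hgQ t h1 h2] at h3
    by_contra h4
    push Not at h4
    have h5 : ‖(taylor b g.Q).coeff k‖ * t ^ k ≤ 0 :=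
      mul_nonpos_of_nonpos_of_nonneg h4 (by positivity)
    linarith
  refine mono_count hNP hF0 b (M := κ * ‖(taylor b g.Q).coeff k‖) H.hu (mul_pos H.hκ hq) ?_ h1 h2
  intro s hs1 hs2
  have hs : 0 < s := lt_of_le_of_lt H.hu hs1
  rw [H.hF s hs1 hs2, hgQ s hs1 hs2, zpow_add₀ hs.ne', zpow_natCast]
  ring

omit [IsUltrametricDist K] [IsAlgClosed K] in
lemma decomp (g : RMap K) (c β : K) :
    g.P - C β * g.Q = (g.P - C c * g.Q) + C (c - β) * g.Q := by
  rw [C_sub]; ring

/-- Gauss norms of the polynomials `P - β Q` -/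
lemma Dat.key (H : Dat g b c u v κ e) (hNP : S_NPOL.{u}) {t : ℝ} (h1 : u < t) (h2 : t < v)
    (β : K) : gn b t (g.P - C β * g.Q) = max ‖c - β‖ (κ * t ^ e) * gn b t g.Q := by
  have ht : 0 < t := lt_of_le_of_lt H.hu h1
  have hQ0 := Q_ne_zero g
  have hF0 := H.F_ne hNP h1 h2
  have hgQ : 0 < gn b t g.Q := (hNP K g.Q b t hQ0 ht).1
  have hF := H.hF t h1 h2
  have hC := gn_C_mul b ht (c - β) g.Q
  rcases lt_trichotomy (κ * t ^ e) ‖c - β‖ with h | h | h
  · rw [decomp g c β, gn_add_of_lt b ht, hC, max_eq_left h.le]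
    rw [hF, hC]
    exact mul_lt_mul_of_pos_right h hgQ
  · rw [h, max_self]
    refine le_antisymm ?_ ?_
    · have h3 := (gauss b t ht).map_add' (g.P - C c * g.Q) (C (c - β) * g.Q)
      rw [← decomp g c β] at h3
      have h4 : gn b t (g.P - C β * g.Q) ≤
          max (gn b t (g.P - C c * g.Q)) (gn b t (C (c - β) * g.Q)) := h3
      rw [hF, hC, h, max_self] at h4
      exact h4
    · set k : ℕ := nIn g.Q {w | ‖w - b‖ ≤ u} with hk
      obtain ⟨-, -, q1, -, -, -⟩ := hNP K g.Q b t hQ0 ht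
      rw [(H.kQ h1 h2).1, ← hk] at q1
      obtain ⟨-, -, -, f2, -, f4⟩ := hNP K (g.P - C c * g.Q) b t hF0 ht
      obtain ⟨n1, n2⟩ := H.kF hNP h1 h2
      rw [← hk] at n1 n2
      have he := H.he
      have hfk : ‖(taylor b (g.P - C c * g.Q)).coeff k‖ * t ^ k <
          gn b t (g.P - C c * g.Q) := by
        rcases lt_or_gt_of_ne he with h5 | h5
        · exact f4 k (by omega)
        · exact f2 k (by omega)
      have htk : 0 < t ^ k := by positivity
      have hck : ‖(c - β) * (taylor b g.Q).coeff k‖ * t ^ k = gn b t (g.P - C c * g.Q) := by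
        rw [norm_mul, mul_assoc, q1, hF, h]
      have hlt : ‖(taylor b (g.P - C c * g.Q)).coeff k‖ < ‖(c - β) * (taylor b g.Q).coeff k‖ := by
        rw [← hck] at hfk
        exact lt_of_mul_lt_mul_right hfk htk.le
      have hco : (taylor b (g.P - C β * g.Q)).coeff k =
          (c - β) * (taylor b g.Q).coeff k + (taylor b (g.P - C c * g.Q)).coeff k := by
        rw [decomp g c β, map_add, coeff_add, taylor_mul, taylor_C, coeff_C_mul]
        ring
      have h6 := coeff_le hNP b ht (g.P - C β * g.Q) k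
      rw [hco, norm_add_lt_eq hlt, hck, hF, h] at h6
      exact h6
  · rw [decomp g c β, add_comm, gn_add_of_lt b ht, hF, max_eq_right h.le]
    rw [hF, hC]
    exact mul_lt_mul_of_pos_right h hgQ

/-- numbers of roots of `P - β Q` when `Q` dominates -/
lemma Dat.cntQ (H : Dat g b c u v κ e) (hNP : S_NPOL.{u}) {t : ℝ} (h1 : u < t) (h2 : t < v)
    {β : K} (h : κ * t ^ e < ‖c - β‖) :
    nIn (g.P - C β * g.Q) {w | ‖w - b‖ < t} = nIn g.Q {w | ‖w - b‖ ≤ u} ∧
      nIn (g.P - C β * g.Q) {w | ‖w - b‖ ≤ t} = nIn g.Q {w | ‖w - b‖ ≤ u} := by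
  have ht : 0 < t := lt_of_le_of_lt H.hu h1
  have hQ0 := Q_ne_zero g
  have hgQ : 0 < gn b t g.Q := (hNP K g.Q b t hQ0 ht).1
  have hcb : c - β ≠ 0 := by
    intro h0
    rw [h0, norm_zero] at h
    have := mul_pos H.hκ (zpow_pos ht e)
    linarith
  have hA : C (c - β) * g.Q ≠ 0 := mul_ne_zero (C_ne_zero.2 hcb) hQ0
  have hlt : gn b t (g.P - C c * g.Q) < gn b t (C (c - β) * g.Q) := by
    rw [H.hF t h1 h2, gn_C_mul b ht]
    exact mul_lt_mul_of_pos_right h hgQ
  have h3 := dom_count hNP ht hA hlt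
  have h4 : C (c - β) * g.Q + (g.P - C c * g.Q) = g.P - C β * g.Q := by
    rw [decomp g c β]; ring
  rw [h4] at h3
  have hroot : ∀ S : Set K, nIn (C (c - β) * g.Q) S = nIn g.Q S := by
    intro S
    classical
    unfold nIn
    rw [roots_C_mul _ hcb]
  rw [hroot, hroot] at h3
  rw [h3.1, h3.2]
  exact H.kQ h1 h2

/-- numbers of roots of `P - β Q` when `F` dominates -/
lemma Dat.cntF (H : Dat g b c u v κ e) (hNP : S_NPOL.{u}) {t : ℝ} (h1 : u < t) (h2 : t < v)
    {β : K} (h : ‖c - β‖ < κ * t ^ e) :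
    (nIn (g.P - C β * g.Q) {w | ‖w - b‖ < t} : ℤ) = e + nIn g.Q {w | ‖w - b‖ ≤ u} ∧
      (nIn (g.P - C β * g.Q) {w | ‖w - b‖ ≤ t} : ℤ) = e + nIn g.Q {w | ‖w - b‖ ≤ u} := by
  have ht : 0 < t := lt_of_le_of_lt H.hu h1
  have hQ0 := Q_ne_zero g
  have hF0 := H.F_ne hNP h1 h2
  have hgQ : 0 < gn b t g.Q := (hNP K g.Q b t hQ0 ht).1
  have hlt : gn b t (C (c - β) * g.Q) < gn b t (g.P - C c * g.Q) := by
    rw [H.hF t h1 h2, gn_C_mul b ht]
    exact mul_lt_mul_of_pos_right h hgQ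
  have h3 := dom_count hNP ht hF0 hlt
  rw [← decomp g c β] at h3
  rw [h3.1, h3.2]
  exact H.kF hNP h1 h2

theorem main : S_ACT.{u} → S_ZT.{u} → S_UNIQ.{u} → S_NPOL.{u} → S_VAL.{u} → S_ISO.{u} →
    S_GLAM.{u} → S_NB.{u} → S_SK.{u} := by
  intro hACT hZT hUNIQ hNP hVAL hISO hGL hNB
  intro K _ _ _ g b c u v κ e hu huv hκ he hQr hF t ht1 ht2
  have H : Dat g b c u v κ e := ⟨hu, hκ, he, hQr, hF⟩
  have ht : 0 < t := lt_of_le_of_lt hu ht1
  have hQ0 := Q_ne_zero g
  have hF0 := H.F_ne hNP ht1 ht2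
  set x : BA K := gauss b t ht with hx
  obtain ⟨-, -, hHK, hztl⟩ := hZT K
  have hxHK : HK x := hHK b t ht
  obtain ⟨a1, a2, a3, -, -⟩ := hACT K g
  obtain ⟨y, hyHK, hgy, -, hlam⟩ := a1 x hxHK
  have hgQt : 0 < gn b t g.Q := (hNP K g.Q b t hQ0 ht).1
  have hylam : ∀ β : K, lam y β = max ‖c - β‖ (κ * t ^ e) := by
    intro β
    rw [hlam β]
    show gn b t (g.P - C β * g.Q) / gn b t g.Q = _
    rw [H.key hNP ht1 ht2 β, mul_div_assoc, div_self hgQt.ne', mul_one]
  have hρ : 0 < κ * t ^ e := mul_pos hκ (zpow_pos ht e)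
  have hyz : (y : P1B K) = zt c (κ * t ^ e) := hztl c _ y hρ hylam
  have hztx : zt b t = (x : P1B K) := zt_pos b ht
  rw [hztx, hgy]
  refine ⟨hyz, ?_⟩
  -- local degree
  obtain ⟨t1, ht11, ht12⟩ := exists_between ht1
  obtain ⟨t2, ht21, ht22⟩ := exists_between ht2
  have ht10 : 0 < t1 := lt_of_le_of_lt hu ht11
  have ht20 : 0 < t2 := ht.trans ht21
  have ht1v : t1 < v := ht12.trans ht2
  have ht2u : u < t2 := ht1.trans ht21
  obtain ⟨-, -, nb3, nb4⟩ := hNB K
  set U : Set (P1B K) := ball b t2 ∩ {x : P1B K | ∀ y : BA K, x = (y : P1B K) → t1 < lam y b}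
    with hU
  have hUo : IsOpen U := (nb3 b t2).inter (nb4 b t1)
  have hlamx : lam x b = t := by
    rw [hx, (hGL K b b).2 t ht, sub_self, norm_zero, max_eq_right ht.le]
  have hxU : (x : P1B K) ∈ U := by
    refine ⟨⟨x, rfl, by rw [hlamx]; exact ht21⟩, ?_⟩
    intro y' hy'
    have : x = y' := OnePoint.coe_injective hy'
    rw [← this, hlamx]
    exact ht12
  have hcl : closure U ⊆ {w : P1B K | ∃ w0 : BA K, w = (w0 : P1B K) ∧ t1 ≤ lam w0 b ∧
      lam w0 b ≤ t2} := by
    intro w hw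
    by_contra hnot
    have hopen : IsOpen (ball b t1 ∪ {x : P1B K | ∀ y : BA K, x = (y : P1B K) → t2 < lam y b}) :=
      (nb3 b t1).union (nb4 b t2)
    have hwO : w ∈ ball b t1 ∪ {x : P1B K | ∀ y : BA K, x = (y : P1B K) → t2 < lam y b} := by
      by_cases h3 : ∀ y : BA K, w = (y : P1B K) → t2 < lam y b
      · exact Or.inr h3
      · push Not at h3
        obtain ⟨y', hy', hy2⟩ := h3
        refine Or.inl ⟨y', hy', ?_⟩
        by_contra h4
        push Not at h4
        exact hnot ⟨y', hy', h4, hy2⟩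
    rw [mem_closure_iff] at hw
    obtain ⟨q, hq1, hq2⟩ := hw _ hopen hwO
    obtain ⟨⟨q0, hq0, hq3⟩, hq4⟩ := hq2
    have hq5 := hq4 q0 hq0
    rcases hq1 with ⟨q', hq', hq6⟩ | hq6
    · have : q0 = q' := OnePoint.coe_injective (hq0.symm.trans hq')
      rw [← this] at hq6
      linarith
    · have := hq6 q0 hq0
      linarith
  have huniq : ∀ w ∈ closure U, g.act w = (y : P1B K) → w = (x : P1B K) := by
    intro w hw hwy
    obtain ⟨w0, rfl, hw1, hw2⟩ := hcl hw
    have hw0HK : HK w0 := by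
      intro z hz
      rw [hz] at hwy
      by_cases hQz : g.Q.eval z = 0
      · rw [a3 z hQz] at hwy
        exact OnePoint.infty_ne_coe _ hwy
      · rw [a2 z hQz] at hwy
        exact hyHK _ (OnePoint.coe_injective hwy).symm
    obtain ⟨y', -, hy', -, hlam'⟩ := a1 w0 hw0HK
    have hyy : y' = y := OnePoint.coe_injective (hy'.symm.trans hwy)
    rw [hyy] at hlam'
    set s : ℝ := lam w0 b with hs
    have hs1 : u < s := lt_of_lt_of_le ht11 hw1
    have hs2 : s < v := lt_of_le_of_lt hw2 ht22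
    have hs0 : 0 < s := lt_of_le_of_lt hu hs1
    have hrQ : ∀ r, g.Q.eval r = 0 → ‖r - b‖ ≠ s := by
      intro r hr hrs
      exact hQr r hr (by rw [hrs]; exact ⟨hs1, hs2⟩)
    have hrF : ∀ r, (g.P - C c * g.Q).eval r = 0 → ‖r - b‖ ≠ s := by
      refine no_root hF0 ?_
      have := H.kF hNP hs1 hs2
      have h3 := this.1.trans this.2.symm
      exact_mod_cast h3
    have hwQ : w0 g.Q = gn b s g.Q := val_eq hVAL hISO hGL w0 b hs0 hs.symm hrQ
    have hwF : w0 (g.P - C c * g.Q) = gn b s (g.P - C c * g.Q) :=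
      val_eq hVAL hISO hGL w0 b hs0 hs.symm hrF
    have hgQs : 0 < gn b s g.Q := (hNP K g.Q b s hQ0 hs0).1
    have hst : s = t := by
      have h3 := hlam' c
      rw [hwQ, hwF, H.hF s hs1 hs2, hylam c, sub_self, norm_zero, max_eq_right hρ.le,
        mul_div_assoc, div_self hgQs.ne', mul_one] at h3
      have h4 : t ^ e = s ^ e := mul_left_cancel₀ hκ.ne' h3
      exact ((zpow_left_inj₀ ht.le hs0.le he).1 h4).symm
    by_contra hne
    -- there is a smaller disc
    have hz : ∃ z : K, ‖z - b‖ ≤ t ∧ lam w0 z < t := by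
      by_contra hcon
      push Not at hcon
      refine hne ?_
      rw [← hztx]
      refine hztl b t w0 ht ?_
      intro z
      obtain ⟨i1, -, i3, -⟩ := hISO K w0 z b
      rw [← hs, hst] at i1 i3
      rcases le_or_gt ‖z - b‖ t with h3 | h3
      · rw [max_eq_right (by rw [norm_sub_rev]; exact h3)]
        refine le_antisymm ?_ (hcon z h3)
        rwa [max_eq_left h3] at i1
      · rw [i3 h3, norm_sub_rev, max_eq_left]
        rw [norm_sub_rev]; exact h3.le
    obtain ⟨z, hz1, hz2⟩ := hz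
    have hzb : ‖z - b‖ = t := by
      refine le_antisymm hz1 ?_
      by_contra h3
      push Not at h3
      have h4 := (hISO K w0 b z).1
      rw [← hs, hst, norm_sub_rev] at h4
      exact absurd (lt_of_le_of_lt h4 (max_lt hz2 h3)) (lt_irrefl _)
    have hQz : g.Q.eval z ≠ 0 := fun h3 => hrQ z h3 (by rw [hzb, hst])
    set γ : K := g.P.eval z / g.Q.eval z with hγ
    have hGz : (g.P - C γ * g.Q).eval z = 0 := by
      rw [eval_sub, eval_mul, eval_C, hγ, div_mul_cancel₀ _ hQz, sub_self]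
    have hlamγ : 0 < lam y γ := by
      rw [hylam γ]
      exact lt_of_lt_of_le hρ (le_max_right _ _)
    have e1 : gn b t (g.P - C γ * g.Q) = lam y γ * gn b t g.Q := by
      rw [H.key hNP ht1 ht2 γ, hylam γ]
    have hG0 : g.P - C γ * g.Q ≠ 0 := by
      intro h0
      rw [h0, gn_zero b ht] at e1
      have := mul_pos hlamγ hgQt
      linarith
    have e2 : w0 (g.P - C γ * g.Q) = lam y γ * gn b t g.Q := by
      have h3 := hlam' γ
      rw [hwQ, hst] at h3
      rw [h3, div_mul_cancel₀ _ hgQt.ne']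
    have e3 := val_lt hVAL hISO hGL w0 b z ht (hs.symm.trans hst) hG0 hGz hz2
    rw [e1, e2] at e3
    exact lt_irrefl _ e3
  refine hUNIQ K g x y hxHK hgy U hUo hxU huniq e.natAbs ?_
  -- counting
  have hUinf : (OnePoint.infty : P1B K) ∉ U := by
    rintro ⟨⟨q, hq, -⟩, -⟩
    exact OnePoint.infty_ne_coe _ hq
  have hcount : ∀ β : K, (cnt g U β : ℤ) = nIn (g.P - C β * g.Q) {w | ‖w - b‖ < t2} -
      nIn (g.P - C β * g.Q) {w | ‖w - b‖ ≤ t1} := by
    intro β
    rw [cnt_eq g U hUinf β]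
    have h3 := nIn_split (g.P - C β * g.Q) {w | ((cl w : BA K) : P1B K) ∈ U}
      {w | ‖w - b‖ ≤ t1} {w | ‖w - b‖ < t2} ?_ ?_
    · omega
    · rintro w ⟨-, hw⟩ hw'
      have h4 := hw (cl w) rfl
      rw [(hGL K w b).1] at h4
      exact absurd hw' (not_le.2 h4)
    · intro w
      constructor
      · intro h4
        rcases le_or_gt ‖w - b‖ t1 with h5 | h5
        · exact Or.inr h5
        · refine Or.inl ⟨⟨cl w, rfl, ?_⟩, ?_⟩
          · rw [(hGL K w b).1]; exact h4
          · intro y' hy'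
            have : cl w = y' := OnePoint.coe_injective hy'
            rw [← this, (hGL K w b).1]
            exact h5
      · rintro (⟨⟨q, hq, hq2⟩, -⟩ | h4)
        · have : cl w = q := OnePoint.coe_injective hq
          rw [← this, (hGL K w b).1] at hq2
          exact hq2
        · exact lt_of_le_of_lt h4 (ht12.trans ht21)
  have hyc : lam y c = κ * t ^ e := by
    rw [hylam c, sub_self, norm_zero, max_eq_right hρ.le]
  have hnear : ∀ lo hi : ℝ, lo < κ * t ^ e → κ * t ^ e < hi →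
      ∀ᶠ β in toward (y : P1B K), lo < ‖c - β‖ ∧ ‖c - β‖ < hi := by
    intro lo hi hlo hhi
    have hO : (ball c hi ∩ {x : P1B K | ∀ y : BA K, x = (y : P1B K) → lo < lam y c}) ∈
        𝓝 (y : P1B K) := by
      refine ((nb3 c hi).inter (nb4 c lo)).mem_nhds ⟨⟨y, rfl, by rw [hyc]; exact hhi⟩, ?_⟩
      intro y' hy'
      have : y = y' := OnePoint.coe_injective hy'
      rw [← this, hyc]
      exact hlo
    have hpre : ∀ᶠ β in toward (y : P1B K), ((cl β : BA K) : P1B K) ∈
        (ball c hi ∩ {x : P1B K | ∀ y : BA K, x = (y : P1B K) → lo < lam y c}) :=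
      preimage_mem_comap hO
    filter_upwards [hpre] with β hβ
    obtain ⟨⟨q, hq, hq2⟩, hβ2⟩ := hβ
    have h3 : cl β = q := OnePoint.coe_injective hq
    rw [← h3, (hGL K β c).1, norm_sub_rev] at hq2
    have h4 := hβ2 (cl β) rfl
    rw [(hGL K β c).1, norm_sub_rev] at h4
    exact ⟨h4, hq2⟩
  rcases lt_or_gt_of_ne he with hneg | hpos
  · -- e < 0
    have hanti : ∀ p q : ℝ, 0 < p → p < q → κ * q ^ e < κ * p ^ e := by
      intro p q hp hpq
      have h3 : p ^ (-e) < q ^ (-e) := zpow_lt_zpow_left₀ (by omega) hp.le hpq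
      have hq : 0 < q := hp.trans hpq
      rw [zpow_neg, zpow_neg, inv_lt_inv₀ (zpow_pos hp e) (zpow_pos hq e)] at h3
      exact mul_lt_mul_of_pos_left h3 hκ
    filter_upwards [hnear (κ * t2 ^ e) (κ * t1 ^ e) (hanti t t2 ht ht21)
      (hanti t1 t ht10 ht12)] with β hβ
    have h3 := (H.cntQ hNP ht2u ht22 hβ.1).1
    have h4 := (H.cntF hNP ht11 ht1v hβ.2).2
    have h5 := hcount β
    rw [h3, h4] at h5
    omega
  · have hmono : ∀ p q : ℝ, 0 < p → p < q → κ * p ^ e < κ * q ^ e := by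
      intro p q hp hpq
      exact mul_lt_mul_of_pos_left (zpow_lt_zpow_left₀ hpos hp.le hpq) hκ
    filter_upwards [hnear (κ * t1 ^ e) (κ * t2 ^ e) (hmono t1 t ht10 ht12)
      (hmono t t2 ht ht21)] with β hβ
    have h3 := (H.cntQ hNP ht11 ht1v hβ.1).2
    have h4 := (H.cntF hNP ht2u ht22 hβ.2).1
    have h5 := hcount β
    rw [h3, h4] at h5
    omega

end mainsec

end Pool.Agent.W395.BE.SK
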